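import Pool.Agent.TH890.BM.GLnThm

open Pool.Agent.TH890.BMn

namespace Pool.Agent.Results.MP_7b0b46_nt.RestrictedHodgeTypes

/-- The Breuil-Mezard conjecture for `GL_n` over `ℚ_p`, `n = m + 1`, for one residual representation and
a given family of multiplicities `μ`.

`R`: the Grothendieck ring `G` of the mod `p` representations of `GL_n` of the field with `p` elements;
`B`: the Serre weights. `T`: the inertial types; `x τ`: the class in `G` of the reduction of the
representation attached to `τ`. `E h τ`: for strictly decreasing `h` the Hilbert-Samuel multiplicity of
the special fibre of the potentially crystalline lifting ring with Hodge-Tate weights `h` and type `τ`,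
extended to an alternating function of `h`. `tw`: twist of types by the Teichmueller character, which
compensates a shift of all weights by one.

The Breuil-Mezard identity holds for all Hodge types and all types iff, for each type, `E` satisfies
the Frobenius relations, and the identity holds for the basic Hodge types (`p`-restricted, with last
weight `0`) and all types. -/
theorem result (p m : ℕ) (hp : p.Prime) {G : Type} [CommRing G] {B : Type} [Fintype B]
    (R : WeylRing p m G B) {T : Type} (x : T → G) (E : (Fin (m + 1) → ℤ) → T → ℤ)
    (hE : ∀ τ, Alt fun h => E h τ) (tw : Equiv.Perm T)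
    (hx : ∀ h τ, R.W (fun a => h a + 1) * x τ = R.W h * x (tw τ))
    (ht : ∀ h τ, StrictAnti h → E (fun a => h a + 1) τ = E h (tw τ)) (μ : B → ℤ) :
    (∀ h τ, StrictAnti h → E h τ = ∑ F, R.basis.repr (R.W h * x τ) F * μ F) ↔
    ((∀ τ, Rel p fun h => E h τ) ∧
      ∀ h τ, Basic p h → E h τ = ∑ F, R.basis.repr (R.W h * x τ) F * μ F) :=
  main R hp.two_le x E hE tw hx ht μ

end Pool.Agent.Results.MP_7b0b46_nt.RestrictedHodgeTypes
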